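import Pool.Agent.Q233.GSP.Dim

/-!
# Generic metrics on a closed surface have few eigenvalues in common with small families of metrics

Let `(M, g)` be a closed surface with a continuous Riemannian metric and isothermal charts (every
smooth metric on a surface has such charts), and let `B` be a Baire topological vector space with a
continuous linear map `ι` to `C(M)` with dense range, for instance the Fréchet space of all smooth
functions with its `C^∞` topology. For generic `x` the metric `exp (ι x) · g` has

1. at most `d` positive eigenvalues in common with each member of a given `d`-parameter family of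
   sequences whose terms are locally Lipschitz functions of the parameters, for instance of the
   spectra of the metrics of a `d`-parameter family (on any manifold);
2. at most `d` positive eigenvalues in common with every metric `exp ψ · g`, `ψ` in a given
   `σ`-compact set of continuous functions of Hausdorff dimension `< d + 1` (for `d = 0` and one
   function `ψ`: none);
3. only finitely many positive eigenvalues in common with every metric `exp ψ · g`, `ψ` in the linear
   span of a given sequence of functions, which may be dense in the space of all smooth functions.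

In particular it is not isospectral to any of these metrics.

Idea of the proof. For generic `x` the constant function and the squares of the eigenfunctions are
linearly independent, so every tuple of positive eigenvalues of different indices is a submersion at
`x`. Hence the tuples `(lam (p 0), ..., lam (p d))` of a generic metric avoid a given meagre subset of
`ℝ^(d + 1)`, and the tuples of the eigenvalues of the members of the family form a meagre set,
being a countable union of compact sets of Hausdorff dimension `< d + 1`.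
-/

set_option autoImplicit false

open Set Filter Topology MeasureTheory
open Pool.Agent.Y262.QE

noncomputable section

namespace Pool.Agent.Results.MP_195a69_gt.CommonEigenvalues

/-- `u 0, u 1, ...` is an orthonormal basis of `L² (μ)` which consists of eigenfunctions of the
Laplacian of the surface `D` with the area `μ`; the eigenvalues `lam 0 ≤ lam 1 ≤ ...` are ordered -/
structure IsEigenbasis {M : Type} [MeasurableSpace M] (D : Data M) (μ : Measure M)
    (u : ℕ → M → ℝ) (lam : ℕ → ℝ) : Prop where
  eig : ∀ j, D.IsEig μ (lam j) (u j)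
  mono : Monotone lam
  orth : ∀ i j, ∫ x, u i x * u j x ∂μ = if i = j then 1 else 0
  total : ∀ f : M → ℝ, MemLp f 2 μ → (∀ j, ∫ x, f x * u j x ∂μ = 0) → f =ᵐ[μ] 0

/-- the surface with the metric `exp φ · g` -/
def surf {M : Type} [TopologicalSpace M] (D : Data M) (φ : C(M, ℝ)) : Data M :=
  D.conf fun x => Real.exp (φ x)

/-- the area of the metric `exp φ · g` -/
def area {M : Type} [TopologicalSpace M] [MeasurableSpace M] (μ : Measure M) (φ : C(M, ℝ)) :
    Measure M :=
  wm μ fun x => Real.exp (φ x)

/-- `lam` is the spectrum of the metric `exp φ · g`, listed with multiplicity -/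
def IsSpectrum {M : Type} [TopologicalSpace M] [MeasurableSpace M] (D : Data M) (μ : Measure M)
    (φ : C(M, ℝ)) (lam : ℕ → ℝ) : Prop :=
  ∃ u : ℕ → M → ℝ, IsEigenbasis (surf D φ) (area μ φ) u lam

/-- the common positive terms of two sequences -/
def common (lam nu : ℕ → ℝ) : Set ℝ := {t | 0 < t ∧ t ∈ range lam ∧ t ∈ range nu}

/-- all the charts of the surface are isothermal: in the chart `i` the metric at `z` is
`‖D.A i z v‖ ²`, and it is a multiple of the flat metric `‖v‖ ²` -/
def Isothermal {M : Type} (D : Data M) : Prop :=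
  ∀ i, ∀ z ∈ D.T i, ∃ c : ℝ, ∀ v, ‖D.A i z v‖ = c * ‖v‖

theorem result (M : Type) [MetricSpace M] [CompactSpace M] [MeasurableSpace M] [BorelSpace M]
    [Nonempty M] (μ : Measure M) (D : Data M) (hD : D.IsSurf μ) (hiso : Isothermal D)
    (B : Type) [AddCommGroup B] [Module ℝ B] [TopologicalSpace B] [IsTopologicalAddGroup B]
    [ContinuousSMul ℝ B] [BaireSpace B] (ι : B →L[ℝ] C(M, ℝ)) (hι : DenseRange ι) :
    (∀ φ : C(M, ℝ), (surf D φ).IsSurf (area μ φ) ∧ ∃! lam, IsSpectrum D μ φ lam) ∧
    (∀ (d : ℕ) (Λ : (Fin d → ℝ) → ℕ → ℝ), (∀ j, LocallyLipschitz fun s => Λ s j) →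
      ∀ᶠ x in residual B, ∀ lam, IsSpectrum D μ (ι x) lam → ∀ s,
        lam ≠ Λ s ∧ (common lam (Λ s)).encard ≤ d) ∧
    (∀ (d : ℕ) (Ψ : Set C(M, ℝ)), IsSigmaCompact Ψ → dimH Ψ < d + 1 →
      ∀ᶠ x in residual B, ∀ lam, IsSpectrum D μ (ι x) lam →
        ∀ ψ ∈ Ψ, ∀ nu, IsSpectrum D μ ψ nu → lam ≠ nu ∧ (common lam nu).encard ≤ d) ∧
    ∀ h : ℕ → C(M, ℝ), ∀ᶠ x in residual B, ∀ lam, IsSpectrum D μ (ι x) lam →
      ∀ ψ ∈ Submodule.span ℝ (range h), ∀ nu, IsSpectrum D μ ψ nu →
        lam ≠ nu ∧ (common lam nu).Finite := by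
  obtain ⟨E, hE, hE2⟩ := Pool.Agent.Q233.GSP.eig_facts μ D hD
  have hbas : ∀ {φ : C(M, ℝ)} {u : ℕ → M → ℝ} {lam : ℕ → ℝ},
      IsEigenbasis (surf D φ) (area μ φ) u lam →
      Pool.Agent.Y264.QR.EigBasis (D.conf fun y => Real.exp (φ y))
        (wm μ fun y => Real.exp (φ y)) u lam :=
    fun hu => ⟨hu.eig, hu.mono, hu.orth, hu.total⟩
  refine ⟨fun φ => ⟨(Pool.Agent.Y262.QE.tConf M μ D hD _
    (Real.continuous_exp.comp φ.continuous) fun x => Real.exp_pos _).1, ?_⟩, ?_, ?_, ?_⟩
  · obtain ⟨u, lam, h⟩ := Pool.Agent.Y264.QR.tEx M μ D hD inferInstance φ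
    refine ⟨lam, ⟨u, h.eig, h.mono, h.orth, h.total⟩, ?_⟩
    rintro nu ⟨v, hv⟩
    funext j
    rw [(hE2 φ u lam h).1 j, (hE2 φ v nu (hbas hv)).1 j]
  · intro d Λ hΛ
    filter_upwards [Pool.Agent.Q233.GSP.common μ D hD hiso B ι hι d Λ hΛ] with x hx lam hlam s
    obtain ⟨u, hu⟩ := hlam
    have h1 := hx u lam (hbas hu) s
    exact ⟨Pool.Agent.Q233.GSP.ne_of_common (hE2 (ι x) u lam (hbas hu)).2 h1, h1⟩
  · intro d Ψ hΨ hd
    filter_upwards [Pool.Agent.Q233.GSP.common_dim μ D hD hiso B ι hι d Ψ hΨ hd]
      with x hx lam hlam ψ hψ nu hnu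
    obtain ⟨u, hu⟩ := hlam
    obtain ⟨v, hv⟩ := hnu
    exact hx u lam (hbas hu) ψ hψ v nu (hbas hv)
  · intro h
    filter_upwards [Pool.Agent.Q233.GSP.common_span μ D hD hiso B ι hι h]
      with x hx lam hlam ψ hψ nu hnu
    obtain ⟨u, hu⟩ := hlam
    obtain ⟨v, hv⟩ := hnu
    exact hx u lam (hbas hu) ψ hψ v nu (hbas hv)

end Pool.Agent.Results.MP_195a69_gt.CommonEigenvalues
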